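import Pool.Agent.helper73.VQ.VR3
import Pool.Agent.helper74.VN.SpecA

/-!
# Row `vn:NR3` (MP_07c750_an, project VN): the remainder vanishes to third order
-/

set_option autoImplicit false

open scoped MatrixGroups ContDiff Topology UpperHalfPlane ComplexConjugate ENNReal
open UpperHalfPlane MeasureTheory Filter Set

namespace Pool.Agent.VN

open Pool.Agent.RS Pool.Agent.VQ

noncomputable section

theorem NR3_coef (ρ a m b u n n' h00 h01 h11 : ℂ) (s : ℝ) (hs : 1 ≤ s) (hρ : ‖ρ‖ ≤ s) (ha : ‖a‖ ≤ s) (hm : ‖m‖ ≤ s) (hb : ‖b‖ ≤ s)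
    (hu : ‖u‖ ≤ s) (hn : ‖n‖ ≤ s) (hn' : ‖n'‖ ≤ s) (h1 : ‖h00‖ ≤ s) (h2 : ‖h01‖ ≤ s) (h3 : ‖h11‖ ≤ s) (j : Fin 13) :
    ‖VR3_c ρ a m b u n n' h00 h01 h11 j‖ ≤ 2 * s ^ 2 := by
  have hs0 : 0 ≤ s := zero_le_one.trans hs
  have hs2 : 1 ≤ s ^ 2 := one_le_pow₀ hs
  have hs3 : s ≤ s ^ 2 := by nlinarith
  have e1 : ∀ x : ℂ, ‖x‖ ≤ s → ‖ρ * x‖ ≤ 2 * s ^ 2 := by
    intro x hx
    rw [norm_mul]
    calc ‖ρ‖ * ‖x‖ ≤ s * s := mul_le_mul hρ hx (norm_nonneg _) hs0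
      _ ≤ 2 * s ^ 2 := by nlinarith
  have e2 : ∀ x y : ℂ, ‖x‖ ≤ s → ‖y‖ ≤ s → ‖x ^ 2 + y ^ 2‖ ≤ 2 * s ^ 2 := by
    intro x y hx hy
    refine (norm_add_le _ _).trans ?_
    rw [norm_pow, norm_pow]
    have := pow_le_pow_left₀ (norm_nonneg x) hx 2
    have := pow_le_pow_left₀ (norm_nonneg y) hy 2
    linarith
  have e3 : ‖m * (a + b)‖ ≤ 2 * s ^ 2 := by
    rw [norm_mul]
    have h4 : ‖a + b‖ ≤ 2 * s := (norm_add_le _ _).trans (by linarith)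
    calc ‖m‖ * ‖a + b‖ ≤ s * (2 * s) := mul_le_mul hm h4 (norm_nonneg _) hs0
      _ = 2 * s ^ 2 := by ring
  have e4 : ‖ρ ^ 2‖ ≤ 2 * s ^ 2 := by
    rw [norm_pow]
    have := pow_le_pow_left₀ (norm_nonneg ρ) hρ 2
    linarith
  fin_cases j
  · exact e1 a ha
  · exact e1 m hm
  · exact e1 b hb
  · exact e2 a m ha hm
  · exact e3
  · exact e2 m b hm hb
  · exact e4
  · exact hu.trans (by linarith)
  · exact hn.trans (by linarith)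
  · exact hn'.trans (by linarith)
  · exact h1.trans (by linarith)
  · exact h2.trans (by linarith)
  · exact h3.trans (by linarith)

theorem NR3_proof (hNUB : NUB_stmt) (hNYA : NYA_stmt) (hNYB : NYB_stmt) : NR3_stmt := by
  intro κ0 hκ0
  obtain ⟨C1, hC1, hUB⟩ := hNUB κ0 hκ0
  obtain ⟨C2, hC2, hY⟩ := hNYB κ0 hκ0
  set C0 : ℝ := C1 + C2 with hC0d
  have hC0 : 1 ≤ C0 := by linarith
  refine ⟨2 * C0, by linarith, fun K B => ?_⟩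
  obtain ⟨A, hA0, hA⟩ := VR3_sum (max K 3)
  set SB := ∑ k ∈ Finset.range (max K 3 + 1), |B k| with hSB
  have hSB0 : 0 ≤ SB := Finset.sum_nonneg fun _ _ => abs_nonneg _
  have hBk : ∀ k ≤ max K 3, |B k| ≤ SB := fun k hk =>
    Finset.single_le_sum (f := fun k => |B k|) (fun _ _ => abs_nonneg _) (Finset.mem_range.2 (by omega))
  refine ⟨A * (2 * C0 ^ 2) + SB + 1, ?_, fun Γ D p t hD hE v0 hv0 => ?_⟩
  · have : 0 ≤ A * (2 * C0 ^ 2) := by positivity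
    linarith
  obtain ⟨-, hU1, hU2, -, -, hU5, hU6⟩ := hUB Γ B D.U hD.pot
  set g := D.fl p.2 t p.1 with hg
  obtain ⟨hu, hn1, hn2, hh, hsym⟩ := hU1 g
  obtain ⟨hr1, hr2, -, -, hkr, -⟩ := hU2 p.2 g hE
  have hMs := (hNYA Γ κ0 B D hD p.2 t p.1 hE).2.2.2.1
  have hMb := (hY Γ B D hD p.2 t p.1 hE).1
  set s := C0 * Real.exp (C0 * |t|) with hs
  have hex : 1 ≤ Real.exp (C0 * |t|) := Real.one_le_exp (by positivity)
  have hs1 : 1 ≤ s := by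
    rw [hs]
    nlinarith
  have hs2 : 2 * s ^ 2 = 2 * C0 ^ 2 * Real.exp (2 * C0 * |t|) := by
    rw [hs, mul_pow, ← Real.exp_nat_mul]
    push_cast
    rw [show 2 * (C0 * |t|) = 2 * C0 * |t| by ring]
    ring
  have hex2 : 1 ≤ Real.exp (2 * C0 * |t|) := Real.one_le_exp (by positivity)
  have hC1s : C1 ≤ s := by
    rw [hs]
    have h1 : C0 * 1 ≤ C0 * Real.exp (C0 * |t|) := mul_le_mul_of_nonneg_left hex (by linarith)
    linarith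
  have hC2s : C2 * Real.exp (C2 * |t|) ≤ s := by
    rw [hs]
    refine mul_le_mul (by linarith) (Real.exp_le_exp.2 ?_) (Real.exp_pos _).le (by linarith)
    exact mul_le_mul_of_nonneg_right (by linarith) (abs_nonneg t)
  have hc : ∀ j, ‖VR3_c (rho D.U p.2 g) (D.M p.2 t p.1 0 0) (D.M p.2 t p.1 0 1) (D.M p.2 t p.1 1 1)
      (D.U (g • I)) (n1 D.U g) (n2 D.U g) (hess D.U g 0 0) (hess D.U g 0 1) (hess D.U g 1 1) j‖ ≤ 2 * s ^ 2 := by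
    intro j
    have hre : ∀ x : ℝ, |x| ≤ C1 → ‖(x : ℂ)‖ ≤ s := fun x hx => by
      rw [Complex.norm_real, Real.norm_eq_abs]
      exact hx.trans hC1s
    have hr0 : |rho D.U p.2 g| ≤ C1 := by
      rw [abs_of_nonneg (le_trans (by positivity) hr1)]
      exact hr2
    exact NR3_coef _ _ _ _ _ _ _ _ _ _ s hs1 (hre _ hr0) ((hMb 0 0).2.2.2.trans hC2s) ((hMb 0 1).2.2.2.trans hC2s) ((hMb 1 1).2.2.2.trans hC2s)
      (hre _ hu) (hre _ hn1) (hre _ hn2) (hre _ (hh 0 0)) (hre _ (hh 0 1)) (hre _ (hh 1 1)) j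
  obtain ⟨hPc, hPb⟩ := hA _ _ hc
  set c := VR3_c (rho D.U p.2 g) (D.M p.2 t p.1 0 0) (D.M p.2 t p.1 0 1) (D.M p.2 t p.1 1 1)
      (D.U (g • I)) (n1 D.U g) (n2 D.U g) (hess D.U g 0 0) (hess D.U g 0 1) (hess D.U g 1 1) with hcdef
  have hr : r3 D t p = fun v : ℂ => (∑ j, c j * VR3_E (v.re : ℂ) (v.im : ℂ) j) + ((Ug D.U g v / 2 : ℝ) : ℂ) := by
    funext v
    exact VR3_id D t p v hMs hsym hkr
  have hUc : ∀ v : ℂ, ‖v‖ ≤ 1 → ContDiffAt ℝ ∞ (Ug D.U g) v := fun v hv => (hU5 g v hv).1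
  have hHe : (fun v : ℂ => ((Ug D.U g v / 2 : ℝ) : ℂ)) = ((1 / 2 : ℝ) • Complex.ofRealCLM) ∘ Ug D.U g := by
    funext v
    simp [div_eq_inv_mul]
  have hHc : ∀ v : ℂ, ‖v‖ ≤ 1 → ContDiffAt ℝ ∞ (fun v : ℂ => ((Ug D.U g v / 2 : ℝ) : ℂ)) v := by
    intro v hv
    rw [hHe]
    exact ((1 / 2 : ℝ) • Complex.ofRealCLM).contDiff.contDiffAt.comp v (hUc v hv)
  have hHb : ∀ v : ℂ, ‖v‖ ≤ 1 → ∀ k : ℕ, ‖iteratedFDeriv ℝ k (fun v : ℂ => ((Ug D.U g v / 2 : ℝ) : ℂ)) v‖ ≤ |B k| := by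
    intro v hv k
    rw [hHe]
    have h1 := ((1 / 2 : ℝ) • Complex.ofRealCLM).norm_iteratedFDeriv_comp_left (x := v) ((hUc v hv).of_le (VR3_nat k)) (le_refl (k : WithTop ℕ∞))
    have h2 : ‖((1 / 2 : ℝ) • Complex.ofRealCLM)‖ ≤ 1 := by
      rw [norm_smul, Complex.ofRealCLM_norm, Real.norm_eq_abs]
      norm_num
    refine h1.trans ?_
    calc _ ≤ 1 * ‖iteratedFDeriv ℝ k (Ug D.U g) v‖ := mul_le_mul_of_nonneg_right h2 (norm_nonneg _)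
      _ ≤ |B k| := by
        rw [one_mul]
        exact (hD.pot.bd g v hv k).trans (le_abs_self _)
  have hrc : ∀ v : ℂ, ‖v‖ ≤ 1 → ContDiffAt ℝ ∞ (r3 D t p) v := by
    intro v hv
    rw [hr]
    exact hPc.contDiffAt.add (hHc v hv)
  set b := (A * (2 * C0 ^ 2) + SB + 1) * Real.exp (2 * C0 * |t|) with hb
  have hrb : ∀ k ≤ max K 3, ∀ v : ℂ, ‖v‖ ≤ 1 → ‖iteratedFDeriv ℝ k (r3 D t p) v‖ ≤ b := by
    intro k hk v hv
    have h1 := hPb k hk v hv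
    have h2 := (hHb v hv k).trans (hBk k hk)
    have h3 : iteratedFDeriv ℝ k (r3 D t p) v = iteratedFDeriv ℝ k (fun v : ℂ => ∑ j, c j * VR3_E (v.re : ℂ) (v.im : ℂ) j) v +
        iteratedFDeriv ℝ k (fun v : ℂ => ((Ug D.U g v / 2 : ℝ) : ℂ)) v := by
      rw [hr]
      exact iteratedFDeriv_add_apply (hPc.contDiffAt.of_le (VR3_nat k)) ((hHc v hv).of_le (VR3_nat k))
    rw [h3]
    refine (norm_add_le _ _).trans ?_
    rw [hs2] at h1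
    have h4 : SB ≤ SB * Real.exp (2 * C0 * |t|) := le_mul_of_one_le_right hSB0 hex2
    have h5 : (0 : ℝ) ≤ Real.exp (2 * C0 * |t|) := (Real.exp_pos _).le
    rw [hb]
    calc _ ≤ A * (2 * C0 ^ 2 * Real.exp (2 * C0 * |t|)) + SB * Real.exp (2 * C0 * |t|) := add_le_add h1 (h2.trans h4)
      _ ≤ (A * (2 * C0 ^ 2) + SB + 1) * Real.exp (2 * C0 * |t|) := by linarith
  obtain ⟨c', hc'⟩ := VR3_O3 c D.U g C1 rfl rfl rfl rfl rfl rfl (hU6 g)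
  have hO : ∀ v : ℂ, ‖v‖ ≤ 1 → ‖r3 D t p v‖ ≤ c' * ‖v‖ ^ 3 := by
    intro v hv
    rw [hr]
    exact hc' v hv
  exact ⟨hrc v0 hv0, VR3_van (r3 D t p) b c' hrc (hrb 3 (le_max_right _ _)) hO v0 hv0, fun k hk => hrb k (hk.trans (le_max_left _ _)) v0 hv0⟩

end

end Pool.Agent.VN
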